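import Mathlib

namespace Pool.Agent.Results.MP_bed60c_co.Join

open SimpleGraph

/-- The join of two graphs. -/
def join {V W : Type} (G : SimpleGraph V) (J : SimpleGraph W) : SimpleGraph (V ⊕ W) where
  Adj
    | .inl a, .inl b => G.Adj a b
    | .inr a, .inr b => J.Adj a b
    | _, _ => True
  symm := ⟨by rintro (a | a) (b | b) h; exacts [h.symm, trivial, trivial, h.symm]⟩
  loopless := ⟨by rintro (a | a) h; exacts [G.irrefl h, J.irrefl h]⟩

/-- There is a small common neighbourhood set of size `s`. -/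
def Scn {V : Type} (G : SimpleGraph V) (s : ℕ) : Prop :=
  ∃ S : Finset V, S.Nonempty ∧ S.card = s ∧ {w | ∀ v ∈ S, G.Adj v w}.ncard ≤ s

open Classical in
/-- What cops at positions `c` see of a robber at `v`. -/
noncomputable def obs {V : Type} (G : SimpleGraph V) {k : ℕ} (c : Fin k → V) (v : V) : Option V :=
  if ∀ i, G.Adj (c i) v then none else some v

/-- The observations available to the cops when they choose their positions number `t`. -/
noncomputable def hist {V : Type} (G : SimpleGraph V) {k : ℕ} (σ : List (Option V) → Fin k → V)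
    (r : ℕ → V) : ℕ → List (Option V)
  | 0 => []
  | t + 1 => obs G (σ (hist G σ r t)) (r t) :: obs G (σ (hist G σ r t)) (r (t - 1)) :: hist G σ r t

/-- `k` hyperopic cops have a strategy that guarantees capture. -/
def Win {V : Type} (G : SimpleGraph V) (k : ℕ) : Prop :=
  ∃ σ : List (Option V) → Fin k → V,
    (∀ l a b i, σ (a :: b :: l) i = σ l i ∨ G.Adj (σ l i) (σ (a :: b :: l) i)) ∧
    ∀ r : ℕ → V, (∀ t, r (t + 1) = r t ∨ G.Adj (r t) (r (t + 1))) →
      ∃ t i, σ (hist G σ r t) i = r t ∨ σ (hist G σ r (t + 1)) i = r t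

theorem hist_congr {V : Type} (G : SimpleGraph V) {k : ℕ} (σ : List (Option V) → Fin k → V)
    (r r' : ℕ → V) (t : ℕ) (h : ∀ s < t, r s = r' s) : hist G σ r t = hist G σ r' t := by
  induction t with
  | zero => rfl
  | succ t ih =>
    simp only [hist]
    rw [ih fun s hs => h s (by omega), h t (by omega), h (t - 1) (by omega)]

theorem lose {V : Type} [Finite V] (G : SimpleGraph V) {k : ℕ} (F : (Fin k → V) → V → Prop)
    (h0 : ∀ c, ∃ v, F c v) (h1 : ∀ c v, F c v → ∀ i, c i ≠ v)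
    (h2 : ∀ c v w, F c v → F c w → obs G c v = obs G c w)
    (h3 : ∀ c d, (∀ i, d i = c i ∨ G.Adj (c i) (d i)) → ∃ o, ∀ w, F d w →
      ∃ v, F c v ∧ (∀ i, d i ≠ v) ∧ obs G d v = o ∧ (w = v ∨ G.Adj v w)) : ¬ Win G k := by
  rintro ⟨σ, hσ, hw⟩
  have key : ∀ T, ∃ l o, ∀ v, F (σ l) v → ∃ r : ℕ → V,
      (∀ t, r (t + 1) = r t ∨ G.Adj (r t) (r (t + 1))) ∧ r T = v ∧ hist G σ r T = l ∧
      obs G (σ l) (r (T - 1)) = o ∧
      ∀ t < T, ∀ i, σ (hist G σ r t) i ≠ r t ∧ σ (hist G σ r (t + 1)) i ≠ r t := by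
    intro T
    induction T with
    | zero =>
      obtain ⟨u, hu⟩ := h0 (σ [])
      exact ⟨[], obs G (σ []) u, fun v hv => ⟨fun _ => v, fun _ => Or.inl rfl, rfl, rfl,
        h2 _ _ _ hv hu, fun t ht => absurd ht (by omega)⟩⟩
    | succ T ih =>
      obtain ⟨l, o, ih⟩ := ih
      obtain ⟨u, hu⟩ := h0 (σ l)
      obtain ⟨o', ho⟩ := h3 (σ l) (σ (obs G (σ l) u :: o :: l)) (hσ l _ _)
      refine ⟨obs G (σ l) u :: o :: l, o', fun w hw => ?_⟩
      obtain ⟨v, a1, a2, a3, a4⟩ := ho w hw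
      obtain ⟨r, b1, b2, b3, b4, b5⟩ := ih v a1
      have e : hist G σ r (T + 1) = obs G (σ l) u :: o :: l := by
        simp only [hist]
        rw [b3, b4, b2, h2 _ _ _ a1 hu]
      have hc : ∀ t ≤ T + 1, hist G σ (fun s => if s ≤ T then r s else w) t = hist G σ r t :=
        fun t ht => hist_congr _ _ _ _ _ fun s hs => if_pos (by omega)
      refine ⟨fun s => if s ≤ T then r s else w, fun t => ?_, if_neg (by omega),
        (hc _ le_rfl).trans e, ?_, fun t ht i => ?_⟩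
      · rcases lt_trichotomy t T with h | h | h
        · simp only [if_pos h.le, if_pos (show t + 1 ≤ T from h)]
          exact b1 t
        · simp only [h, le_refl, if_true, if_neg (show ¬ T + 1 ≤ T by omega), b2]
          exact a4
        · simp only [if_neg (show ¬ t ≤ T by omega), if_neg (show ¬ t + 1 ≤ T by omega)]
          exact Or.inl trivial
      · simp only [Nat.add_sub_cancel, le_refl, if_true, b2]
        exact a3
      · rw [hc t (by omega), hc (t + 1) (by omega)]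
        simp only [if_pos (show t ≤ T by omega)]
        rcases (Nat.lt_succ_iff.1 ht).lt_or_eq with h | h
        · exact b5 t h i
        · rw [h, e, b3, b2]
          exact ⟨h1 _ _ a1 i, a2 i⟩
  have key2 : ∀ T, ∃ r : ℕ → V, (∀ t, r (t + 1) = r t ∨ G.Adj (r t) (r (t + 1))) ∧
      ∀ t < T, ∀ i, σ (hist G σ r t) i ≠ r t ∧ σ (hist G σ r (t + 1)) i ≠ r t := fun T => by
    obtain ⟨l, o, h⟩ := key T
    obtain ⟨u, hu⟩ := h0 (σ l)
    obtain ⟨r, a, -, -, -, b⟩ := h u hu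
    exact ⟨r, a, b⟩
  choose R hR1 hR2 using key2
  have lim : ∀ t, ∃ v, ∀ᶠ T in (Filter.hyperfilter ℕ : Filter ℕ), R T t = v := fun t => by
    obtain ⟨v, hv⟩ := Ultrafilter.eq_pure_of_finite ((Filter.hyperfilter ℕ).map fun T => R T t)
    refine ⟨v, ?_⟩
    have : {v} ∈ (Filter.hyperfilter ℕ).map fun T => R T t := by rw [hv]; simp
    exact this
  choose r hr using lim
  have agree : ∀ t, ∃ T, t < T ∧ ∀ s < t + 2, R T s = r s := fun t => by
    have a : ∀ᶠ T in (Filter.hyperfilter ℕ : Filter ℕ), ∀ s ∈ Finset.range (t + 2),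
        R T s = r s := (Filter.eventually_all_finset _).2 fun s _ => hr s
    have b : ∀ᶠ T in (Filter.hyperfilter ℕ : Filter ℕ), t < T :=
      Nat.hyperfilter_le_atTop (Filter.eventually_gt_atTop t)
    obtain ⟨T, h1, h2⟩ := (b.and a).exists
    exact ⟨T, h1, fun s hs => h2 s (Finset.mem_range.2 hs)⟩
  obtain ⟨t, i, h⟩ := hw r fun t => by
    obtain ⟨T, -, h⟩ := agree t
    rw [← h t (by omega), ← h (t + 1) (by omega)]
    exact hR1 T t
  obtain ⟨T, a, b⟩ := agree t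
  have := hR2 T t a i
  rw [hist_congr G σ _ r t fun s hs => b s (by omega),
    hist_congr G σ _ r (t + 1) fun s hs => b s (by omega), b t (by omega)] at this
  exact h.elim this.1 this.2

def GG : SimpleGraph (Fin 7) where
  Adj i j := ([98, 25, 120, 118, 110, 93, 61].getD i 0).testBit j
  symm := ⟨by decide⟩
  loopless := ⟨by decide⟩

instance : DecidableRel GG.Adj := fun _ _ => inferInstanceAs (Decidable (_ = true))

abbrev HH := join GG (⊤ : SimpleGraph (Fin 2))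

def ad : Fin 7 ⊕ Fin 2 → Fin 7 ⊕ Fin 2 → Bool
  | .inl i, .inl j => ([98, 25, 120, 118, 110, 93, 61].getD i 0).testBit j
  | .inr i, .inr j => i != j
  | _, _ => true

theorem adj_iff (u v : Fin 7 ⊕ Fin 2) : HH.Adj u v ↔ ad u v := by
  rcases u with u | u <;> rcases v with v | v
  exacts [Iff.rfl, by simp [join, ad], by simp [join, ad], by simp [join, ad]]

def FF (a b v : Fin 7 ⊕ Fin 2) : Bool :=
  if (a = .inl 0 ∧ b = .inl 1) ∨ (a = .inl 1 ∧ b = .inl 0) then v = .inl 2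
  else ad a v && ad b v && v != .inl 0 && v != .inl 1

def ob (a b v : Fin 7 ⊕ Fin 2) : Option (Fin 7 ⊕ Fin 2) :=
  if ad a v && ad b v then none else some v

theorem obs_eq {k : ℕ} (j : Fin (k + 1)) (hj : ∀ i : Fin (k + 1), i = 0 ∨ i = j)
    (c : Fin (k + 1) → Fin 7 ⊕ Fin 2) (v : Fin 7 ⊕ Fin 2) : obs HH c v = ob (c 0) (c j) v := by
  unfold obs ob
  have e : (∀ i, HH.Adj (c i) v) ↔ (ad (c 0) v && ad (c j) v) = true := by
    simp only [adj_iff, Bool.and_eq_true]
    exact ⟨fun h => ⟨h 0, h j⟩, fun h i => by rcases hj i with rfl | rfl; exacts [h.1, h.2]⟩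
  by_cases h : ∀ i, HH.Adj (c i) v
  · rw [if_pos h, if_pos (e.1 h)]
  · rw [if_neg h, if_neg fun h' => h (e.2 h')]

def pre (a b c d : Fin 7 ⊕ Fin 2) (o : Option (Fin 7 ⊕ Fin 2)) (w : Fin 7 ⊕ Fin 2) : Bool :=
  decide (∃ v, FF a b v ∧ c ≠ v ∧ d ≠ v ∧ ob c d v = o ∧ (w = v ∨ ad v w))

def suc (a b c d : Fin 7 ⊕ Fin 2) : Bool := decide (∃ o, ∀ w, FF c d w → pre a b c d o w)

theorem k3' : ∀ a c : Fin 7 ⊕ Fin 2, (c = a ∨ ad a c) → ∀ b d : Fin 7 ⊕ Fin 2, (d = b ∨ ad b d) →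
    suc a b c d := by
  decide +kernel

theorem k3 (a c : Fin 7 ⊕ Fin 2) (h : c = a ∨ ad a c) (b d : Fin 7 ⊕ Fin 2)
    (h' : d = b ∨ ad b d) : ∃ o, ∀ w, FF c d w →
      ∃ v, FF a b v ∧ c ≠ v ∧ d ≠ v ∧ ob c d v = o ∧ (w = v ∨ ad v w) := by
  obtain ⟨o, ho⟩ := of_decide_eq_true (k3' a c h b d h')
  exact ⟨o, fun w hw => of_decide_eq_true (ho w hw)⟩

theorem nowin (k : ℕ) (j : Fin (k + 1)) (hj : ∀ i : Fin (k + 1), i = 0 ∨ i = j) :
    ¬ Win HH (k + 1) := by
  have k0 : ∀ a b, ∃ v, FF a b v := by decide +kernel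
  have k1 : ∀ a b v, FF a b v → a ≠ v ∧ b ≠ v := by decide +kernel
  have k2 : ∀ a b v w, FF a b v → FF a b w → ob a b v = ob a b w := by decide +kernel
  refine lose HH (fun c v => FF (c 0) (c j) v) (fun c => k0 _ _) (fun c v h i => ?_)
    (fun c v w a b => ?_) fun c d h => ?_
  · rcases hj i with rfl | rfl
    exacts [(k1 _ _ _ h).1, (k1 _ _ _ h).2]
  · rw [obs_eq j hj, obs_eq j hj]
    exact k2 _ _ _ _ a b
  · simp only [adj_iff] at h
    obtain ⟨o, ho⟩ := k3 _ _ (h 0) _ _ (h j)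
    refine ⟨o, fun w hw => ?_⟩
    obtain ⟨v, a1, a2, a3, a4, a5⟩ := ho w hw
    refine ⟨v, a1, fun i => ?_, by rw [obs_eq j hj, a4], by rwa [adj_iff]⟩
    rcases hj i with rfl | rfl
    exacts [a2, a3]

theorem result : ∃ (G : SimpleGraph (Fin 7)) (J : SimpleGraph (Fin 2)) (u c : ℕ),
    G.Connected ∧ J.Connected ∧ IsLeast {s | Scn (join G J) s} u ∧
    IsLeast {k | Win (join G J) k} c ∧ u < c := by
  have h1 : 2 ∈ {s | Scn HH s} := by
    refine ⟨{.inl 0, .inl 1}, by simp, by decide, ?_⟩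
    have : {w | ∀ v ∈ ({.inl 0, .inl 1} : Finset (Fin 7 ⊕ Fin 2)), HH.Adj v w} =
        {.inr 0, .inr 1} := by
      ext w
      simp only [adj_iff, Set.mem_ofPred_eq, Set.mem_insert_iff, Set.mem_singleton_iff]
      revert w
      decide +kernel
    rw [this, Set.ncard_pair (by decide)]
  have h2 : 9 ∈ {k | Win HH k} :=
    ⟨fun _ => (finSumFinEquiv (m := 7) (n := 2)).symm, fun _ _ _ _ => Or.inl rfl, fun r _ =>
      ⟨0, finSumFinEquiv (r 0), Or.inl (Equiv.symm_apply_apply _ _)⟩⟩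
  have l1 := isLeast_csInf ⟨_, h1⟩
  have l2 := isLeast_csInf ⟨_, h2⟩
  refine ⟨GG, ⊤, _, _, by decide +kernel, connected_top, l1, l2, ?_⟩
  have a := l1.2 h1
  have b := l2.1
  generalize sInf {k | Win HH k} = c at b
  by_contra hh
  obtain rfl | rfl | rfl : c = 0 ∨ c = 1 ∨ c = 2 := by omega
  · obtain ⟨σ, -, h⟩ := b
    obtain ⟨_, i, -⟩ := h (fun _ => .inl 0) fun _ => Or.inl rfl
    exact i.elim0
  · exact nowin 0 0 (by decide) b
  · exact nowin 1 1 (by decide) b

end Pool.Agent.Results.MP_bed60c_co.Join
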